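import Pool.Agent.Helper25.LS.Defs

/-!
# The flag of generalised eigenvectors
-/

set_option autoImplicit false

open Filter Topology Module Submodule

noncomputable section

namespace Pool.Agent.Helper42.LS

open Pool.Agent.Helper25.LS

/-- A locally nilpotent map on a finite-dimensional space has a strictly triangular basis. -/
theorem fl_tri {X : Type} [AddCommGroup X] [Module ℂ X] (N : X →ₗ[ℂ] X) :
    ∀ (d : ℕ) (W : Submodule ℂ X), FiniteDimensional ℂ W → finrank ℂ W = d →
      (∀ x ∈ W, N x ∈ W) → (∀ x ∈ W, ∃ k : ℕ, (N ^ k) x = 0) →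
      ∃ b : ℕ → X, (∀ i, d ≤ i → b i = 0) ∧ (∀ i, i < d → b i ∉ span ℂ (b '' {j | j < i})) ∧
        (∀ i, N (b i) ∈ span ℂ (b '' {j | j < i})) ∧ span ℂ (Set.range b) = W := by
  intro d
  induction d with
  | zero =>
    intro W hfd hW _ _
    have hW0 : W = ⊥ := Submodule.finrank_eq_zero.1 hW
    refine ⟨fun _ => 0, fun _ _ => rfl, fun i hi => absurd hi (by omega), fun i => ?_, ?_⟩
    · rw [map_zero]; exact zero_mem _
    · rw [hW0, eq_bot_iff, span_le]
      rintro _ ⟨i, rfl⟩
      simp
  | succ d ih =>
    intro W hfd hW hN hnil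
    -- the image of `W` is not all of `W`
    have hne : ∃ v ∈ W, v ∉ W.map N := by
      by_contra hcon
      push Not at hcon
      let g : W →ₗ[ℂ] W := N.restrict hN
      have hsurj : Function.Surjective g := by
        rintro ⟨x, hx⟩
        obtain ⟨y, hy, hyx⟩ := hcon x hx
        exact ⟨⟨y, hy⟩, Subtype.ext hyx⟩
      have hinj : Function.Injective g := LinearMap.injective_iff_surjective.2 hsurj
      have hker : ∀ k : ℕ, ∀ x ∈ W, (N ^ k) x = 0 → x = 0 := by
        intro k
        induction k with
        | zero => intro x _ hx; simpa using hx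
        | succ k ihk =>
          intro x hx h0
          rw [pow_succ, Module.End.mul_apply] at h0
          have h1 := ihk (N x) (hN x hx) h0
          have h2 : g ⟨x, hx⟩ = g 0 := by
            rw [map_zero]
            exact Subtype.ext h1
          have h3 := hinj h2
          exact congrArg Subtype.val h3
      have hbot : W = ⊥ := by
        rw [eq_bot_iff]
        intro x hx
        obtain ⟨k, hk⟩ := hnil x hx
        rw [Submodule.mem_bot]
        exact hker k x hx hk
      rw [hbot] at hW
      simp at hW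
    obtain ⟨v, hvW, hv⟩ := hne
    obtain ⟨f, hfv, hf⟩ := Submodule.exists_le_ker_of_notMem hv
    let W' : Submodule ℂ X := W ⊓ LinearMap.ker f
    have hW'fd : FiniteDimensional ℂ W' := Submodule.finiteDimensional_of_le inf_le_left
    have hW'd : finrank ℂ W' = d := by
      let g : W →ₗ[ℂ] ℂ := f.domRestrict W
      have h1 := LinearMap.finrank_range_add_finrank_ker g
      have h2 : LinearMap.range g = ⊤ := by
        rw [LinearMap.range_eq_top]
        intro z
        refine ⟨(z / f v) • ⟨v, hvW⟩, ?_⟩
        rw [map_smul]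
        change (z / f v) * f v = z
        exact div_mul_cancel₀ z hfv
      rw [h2, finrank_top, Module.finrank_self, hW] at h1
      have h3 : W' = (LinearMap.ker g).map W.subtype := by
        ext x
        constructor
        · rintro ⟨hx1, hx2⟩
          exact ⟨⟨x, hx1⟩, hx2, rfl⟩
        · rintro ⟨⟨y, hy⟩, hy2, rfl⟩
          exact ⟨hy, hy2⟩
      rw [h3, Submodule.finrank_map_subtype_eq]
      omega
    have hN' : ∀ x ∈ W, N x ∈ W' := fun x hx => ⟨hN x hx, hf ⟨x, hx, rfl⟩⟩
    obtain ⟨b, hb1, hb2, hb3, hb4⟩ := ih W' hW'fd hW'd (fun x hx => hN' x hx.1)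
      (fun x hx => hnil x hx.1)
    have hbW : ∀ i, b i ∈ W' := fun i => hb4 ▸ subset_span ⟨i, rfl⟩
    have himg : ∀ i, i ≤ d → (Function.update b d v) '' {j | j < i} = b '' {j | j < i} := by
      intro i hi
      apply Set.image_congr
      intro j hj
      have hj' : j < i := hj
      rw [Function.update_of_ne (by omega)]
    have hspan : W' ≤ span ℂ ((Function.update b d v) '' {j | j < d}) := by
      rw [himg d le_rfl, ← hb4, span_le]
      rintro _ ⟨i, rfl⟩
      rcases lt_or_ge i d with h | h
      · exact subset_span ⟨i, h, rfl⟩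
      · rw [hb1 i h]; exact zero_mem _
    refine ⟨Function.update b d v, ?_, ?_, ?_, ?_⟩
    · intro i hi
      rw [Function.update_of_ne (by omega)]
      exact hb1 i (by omega)
    · intro i hi
      rcases eq_or_ne i d with rfl | hid
      · rw [himg i le_rfl, Function.update_self]
        intro h
        have h1 : v ∈ W' := by
          rw [← hb4]
          exact span_mono (Set.image_subset_range _ _) h
        exact hfv h1.2
      · rw [himg i (by omega), Function.update_of_ne hid]
        exact hb2 i (by omega)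
    · intro i
      rcases lt_trichotomy i d with hid | rfl | hid
      · rw [himg i hid.le, Function.update_of_ne hid.ne]
        exact hb3 i
      · rw [Function.update_self]
        exact hspan (hN' v hvW)
      · rw [Function.update_of_ne hid.ne', hb1 i hid.le, map_zero]
        exact zero_mem _
    · apply le_antisymm
      · rw [span_le]
        rintro _ ⟨i, rfl⟩
        rcases eq_or_ne i d with rfl | hid
        · rw [Function.update_self]; exact hvW
        · rw [Function.update_of_ne hid]; exact (hbW i).1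
      · intro x hx
        have h1 : x - (f x / f v) • v ∈ W' := by
          refine ⟨W.sub_mem hx (W.smul_mem _ hvW), ?_⟩
          change f (x - (f x / f v) • v) = 0
          rw [map_sub, map_smul, smul_eq_mul, div_mul_cancel₀ _ hfv, sub_self]
        have h2 : x - (f x / f v) • v ∈ span ℂ (Set.range (Function.update b d v)) :=
          span_mono (Set.image_subset_range _ _) (hspan h1)
        have h3 : v ∈ span ℂ (Set.range (Function.update b d v)) :=
          subset_span ⟨d, Function.update_self _ _ _⟩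
        have h4 := add_mem h2 (smul_mem _ (f x / f v) h3)
        rwa [sub_add_cancel] at h4

/-- The triangular basis of one generalised eigenspace. -/
theorem fl_block {X : Type} [AddCommGroup X] [Module ℂ X] (T : X →ₗ[ℂ] X) (μ : ℂ)
    (h : FiniteDimensional ℂ (Module.End.maxGenEigenspace T μ)) :
    ∃ b : ℕ → X, (∀ i, finrank ℂ (Module.End.maxGenEigenspace T μ) ≤ i → b i = 0) ∧
      (∀ i, i < finrank ℂ (Module.End.maxGenEigenspace T μ) →
        b i ∉ span ℂ (b '' {j | j < i})) ∧
      (∀ i, T (b i) - μ • b i ∈ span ℂ (b '' {j | j < i})) ∧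
      span ℂ (Set.range b) = Module.End.maxGenEigenspace T μ := by
  have h1 := fl_tri (T - μ • (1 : Module.End ℂ X)) _ _ h rfl ?_ ?_
  · exact h1
  · intro x hx
    rw [Module.End.mem_maxGenEigenspace] at hx ⊢
    obtain ⟨k, hk⟩ := hx
    refine ⟨k, ?_⟩
    have h2 : ((T - μ • (1 : Module.End ℂ X)) ^ k) ((T - μ • (1 : Module.End ℂ X)) x) =
        (T - μ • (1 : Module.End ℂ X)) (((T - μ • (1 : Module.End ℂ X)) ^ k) x) := by
      rw [← Module.End.mul_apply, ← Module.End.mul_apply, ← pow_succ, ← pow_succ']
    rw [h2, hk, map_zero]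
  · intro x hx
    exact (Module.End.mem_maxGenEigenspace T μ x).1 hx

/-- FL. -/
theorem fl : S_FL := by
  intro X _ _ T hfd hsum
  classical
  set L : X →ₗ[ℂ] X := (T : X →ₗ[ℂ] X) with hL
  set d : ℂ → ℕ := fun μ => finrank ℂ (Module.End.maxGenEigenspace L μ) with hd
  have hsum' : Summable (fun μ : ℂ => (d μ : ℝ) * ‖μ‖) := hsum
  set S : Set ℂ := Function.support (fun μ : ℂ => (d μ : ℝ) * ‖μ‖) with hS
  have hSc : S.Countable := hsum'.countable_support
  have : Countable S := hSc
  obtain ⟨c, hc⟩ := exists_injective_nat S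
  -- the enumeration of the blocks
  set mu : ℕ → ℂ := fun a => if h : ∃ s : S, c s = a then (h.choose : ℂ) else 0 with hmu
  have hmuc : ∀ s : S, mu (c s) = s := by
    intro s
    have h : ∃ t : S, c t = c s := ⟨s, rfl⟩
    have h1 : mu (c s) = (h.choose : ℂ) := by
      rw [hmu]
      exact dif_pos h
    rw [h1]
    exact congrArg Subtype.val (hc h.choose_spec)
  have hmu0 : ∀ a, a ∉ Set.range c → mu a = 0 := by
    intro a ha
    have h : ¬ ∃ t : S, c t = a := fun ⟨t, ht⟩ => ha ⟨t, ht⟩
    rw [hmu]
    exact dif_neg h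
  have hmur : ∀ a, mu a ≠ 0 → ∃ s : S, c s = a := by
    intro a ha
    by_contra hcon
    exact ha (hmu0 a fun ⟨t, ht⟩ => hcon ⟨t, ht⟩)
  have hmui : ∀ a b, mu a ≠ 0 → mu a = mu b → a = b := by
    intro a b ha hab
    obtain ⟨s, rfl⟩ := hmur a ha
    obtain ⟨t, rfl⟩ := hmur b (hab ▸ ha)
    rw [hmuc, hmuc] at hab
    rw [Subtype.ext hab]
  -- the blocks
  have hblock : ∀ μ : ℂ, ∃ b : ℕ → X, μ ≠ 0 → (∀ i, d μ ≤ i → b i = 0) ∧
      (∀ i, i < d μ → b i ∉ span ℂ (b '' {j | j < i})) ∧
      (∀ i, L (b i) - μ • b i ∈ span ℂ (b '' {j | j < i})) ∧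
      span ℂ (Set.range b) = Module.End.maxGenEigenspace L μ := by
    intro μ
    rcases eq_or_ne μ 0 with rfl | hμ
    · exact ⟨fun _ => 0, fun h => absurd rfl h⟩
    · obtain ⟨b, hb⟩ := fl_block L μ (hfd μ hμ)
      exact ⟨b, fun _ => hb⟩
  choose B hB using hblock
  set w : ℕ → X := fun k => if mu (Nat.unpair k).1 = 0 then 0 else
    B (mu (Nat.unpair k).1) (Nat.unpair k).2 with hw
  set lam : ℕ → ℂ := fun k => if (Nat.unpair k).2 < d (mu (Nat.unpair k).1) then
    mu (Nat.unpair k).1 else 0 with hlam
  have hwp : ∀ a i, mu a ≠ 0 → w (Nat.pair a i) = B (mu a) i := by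
    intro a i ha
    rw [hw]
    simp only [Nat.unpair_pair]
    rw [if_neg ha]
  have hsub : ∀ a i, mu a ≠ 0 → span ℂ (B (mu a) '' {j | j < i}) ≤
      span ℂ (w '' {l | l < Nat.pair a i}) := by
    intro a i ha
    apply span_mono
    rintro _ ⟨j, hj, rfl⟩
    exact ⟨Nat.pair a j, Nat.pair_lt_pair_right a hj, hwp a j ha⟩
  have htri : ∀ k, T (w k) - lam k • w k ∈ span ℂ (w '' {l | l < k}) := by
    intro k
    obtain ⟨⟨a, i⟩, rfl⟩ : ∃ p : ℕ × ℕ, Nat.pair p.1 p.2 = k :=
      ⟨Nat.unpair k, Nat.pair_unpair k⟩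
    rcases eq_or_ne (mu a) 0 with ha | ha
    · have h1 : w (Nat.pair a i) = 0 := by
        rw [hw]
        simp only [Nat.unpair_pair]
        rw [if_pos ha]
      rw [h1, map_zero, smul_zero, sub_zero]
      exact zero_mem _
    · rw [hwp a i ha]
      rcases lt_or_ge i (d (mu a)) with hi | hi
      · have h1 : lam (Nat.pair a i) = mu a := by
          rw [hlam]
          simp only [Nat.unpair_pair]
          rw [if_pos hi]
        rw [h1]
        exact hsub a i ha ((hB _ ha).2.2.1 i)
      · rw [(hB _ ha).1 i hi, map_zero, smul_zero, sub_zero]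
        exact zero_mem _
  have hind : ∀ k, w k ∈ span ℂ (w '' {l | l < k}) → w k = 0 ∧ lam k = 0 := by
    intro k hk
    obtain ⟨⟨a, i⟩, rfl⟩ : ∃ p : ℕ × ℕ, Nat.pair p.1 p.2 = k :=
      ⟨Nat.unpair k, Nat.pair_unpair k⟩
    simp only at hk ⊢
    have hlam' : lam (Nat.pair a i) = if i < d (mu a) then mu a else 0 := by
      rw [hlam]
      simp only [Nat.unpair_pair]
    rcases eq_or_ne (mu a) 0 with ha | ha
    · refine ⟨?_, ?_⟩
      · rw [hw]
        simp only [Nat.unpair_pair]
        rw [if_pos ha]
      · rw [hlam', ha, ite_self]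
    · rcases lt_or_ge i (d (mu a)) with hi | hi
      · exfalso
        rw [hwp a i ha] at hk
        have hle : span ℂ (w '' {l | l < Nat.pair a i}) ≤ span ℂ (B (mu a) '' {j | j < i}) ⊔
            ⨆ ν, ⨆ _ : ν ≠ mu a, Module.End.maxGenEigenspace L ν := by
          rw [span_le]
          rintro _ ⟨l, hl, rfl⟩
          obtain ⟨⟨a', j⟩, rfl⟩ : ∃ p : ℕ × ℕ, Nat.pair p.1 p.2 = l :=
            ⟨Nat.unpair l, Nat.pair_unpair l⟩
          simp only [Set.mem_ofPred_eq] at hl ⊢
          rcases eq_or_ne (mu a') 0 with ha' | ha'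
          · have h1 : w (Nat.pair a' j) = 0 := by
              rw [hw]
              simp only [Nat.unpair_pair]
              rw [if_pos ha']
            rw [h1]
            exact zero_mem _
          · rw [hwp a' j ha']
            by_cases haa : mu a' = mu a
            · have h1 := hmui a' a ha' haa
              subst h1
              apply mem_sup_left
              apply subset_span
              refine ⟨j, ?_, rfl⟩
              by_contra hcon
              have hij : i ≤ j := not_lt.1 hcon
              have h2 : Nat.pair a' i ≤ Nat.pair a' j := by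
                rcases hij.lt_or_eq with h3 | h3
                · exact (Nat.pair_lt_pair_right a' h3).le
                · rw [h3]
              omega
            · apply mem_sup_right
              have h1 : B (mu a') j ∈ Module.End.maxGenEigenspace L (mu a') := by
                rw [← (hB _ ha').2.2.2]
                exact subset_span ⟨j, rfl⟩
              exact mem_iSup_of_mem (mu a') (mem_iSup_of_mem haa h1)
        obtain ⟨x, hx, y, hy, hxy⟩ := mem_sup.1 (hle hk)
        have hsp : span ℂ (B (mu a) '' {j | j < i}) ≤ Module.End.maxGenEigenspace L (mu a) := by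
          rw [← (hB _ ha).2.2.2]
          exact span_mono (Set.image_subset_range _ _)
        have hbm : B (mu a) i ∈ Module.End.maxGenEigenspace L (mu a) := by
          rw [← (hB _ ha).2.2.2]
          exact subset_span ⟨i, rfl⟩
        have hy2 : y ∈ Module.End.maxGenEigenspace L (mu a) := by
          have : y = B (mu a) i - x := by rw [← hxy]; abel
          rw [this]
          exact sub_mem hbm (hsp hx)
        have hdis := (Module.End.independent_maxGenEigenspace L) (mu a)
        have hy0 : y = 0 := (Submodule.disjoint_def.1 hdis) y hy2 hy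
        rw [hy0, add_zero] at hxy
        rw [hxy] at hx
        exact (hB _ ha).2.1 i hi hx
      · refine ⟨?_, ?_⟩
        · rw [hwp a i ha]
          exact (hB _ ha).1 i hi
        · rw [hlam', if_neg (not_lt.2 hi)]
  have hgen : ∀ μ : ℂ, μ ≠ 0 → Module.End.maxGenEigenspace L μ ≤ span ℂ (Set.range w) := by
    intro μ hμ
    by_cases hμS : μ ∈ S
    · have ha : mu (c ⟨μ, hμS⟩) = μ := hmuc ⟨μ, hμS⟩
      have ha0 : mu (c ⟨μ, hμS⟩) ≠ 0 := by rw [ha]; exact hμ
      rw [← (hB μ hμ).2.2.2]
      apply span_mono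
      rintro _ ⟨i, rfl⟩
      refine ⟨Nat.pair (c ⟨μ, hμS⟩) i, ?_⟩
      rw [hwp _ i ha0, ha]
    · have h1 : (d μ : ℝ) * ‖μ‖ = 0 := by
        by_contra hcon
        exact hμS hcon
      have h2 : d μ = 0 := by
        rcases mul_eq_zero.1 h1 with h | h
        · exact_mod_cast h
        · exact absurd (norm_eq_zero.1 h) hμ
      have := hfd μ hμ
      have h3 : Module.End.maxGenEigenspace L μ = ⊥ := Submodule.finrank_eq_zero.1 h2
      rw [h3]
      exact bot_le
  -- the sums
  have hlp : ∀ a i, lam (Nat.pair a i) = if i < d (mu a) then mu a else 0 := by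
    intro a i
    rw [hlam]
    simp only [Nat.unpair_pair]
  have hrow : ∀ (a : ℕ) {E : Type} [NormedAddCommGroup E] (F : ℂ → E), F 0 = 0 →
      HasSum (fun i => F (lam (Nat.pair a i))) (d (mu a) • F (mu a)) := by
    intro a E _ F hF
    have h1 : HasSum (fun i => F (lam (Nat.pair a i)))
        (∑ i ∈ Finset.range (d (mu a)), F (lam (Nat.pair a i))) := by
      apply hasSum_sum_of_ne_finset_zero
      intro i hi
      rw [hlp, if_neg (by simpa using hi), hF]
    have h2 : ∑ i ∈ Finset.range (d (mu a)), F (lam (Nat.pair a i)) = d (mu a) • F (mu a) := by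
      rw [Finset.sum_congr rfl (g := fun _ => F (mu a))]
      · simp
      · intro i hi
        rw [hlp, if_pos (by simpa using hi)]
    rwa [h2] at h1
  have hcol : ∀ {E : Type} [NormedAddCommGroup E] (G : ℂ → E), G 0 = 0 →
      (Summable (fun a => G (mu a)) ↔ Summable (fun s : S => G s)) ∧
      ∑' a, G (mu a) = ∑' s : S, G s := by
    intro E _ G hG
    have h0 : ∀ a, a ∉ Set.range c → G (mu a) = 0 := by
      intro a ha
      rw [hmu0 a ha, hG]
    have h1 : (fun a => G (mu a)) ∘ c = fun s : S => G s := by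
      funext s
      simp only [Function.comp]
      rw [hmuc]
    refine ⟨?_, ?_⟩
    · rw [← h1]
      exact (hc.summable_iff h0).symm
    · rw [← h1]
      have h2 : Function.support (fun a => G (mu a)) ⊆ Set.range c := by
        intro a ha
        by_contra hcon
        exact ha (h0 a hcon)
      exact (hc.tsum_eq h2).symm
  have hsn : Summable (fun p : ℕ × ℕ => ‖lam (Nat.pair p.1 p.2)‖) := by
    rw [summable_prod_of_nonneg (fun _ => norm_nonneg _)]
    refine ⟨fun a => (hrow a (fun z => ‖z‖) norm_zero).summable, ?_⟩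
    have h1 : ∀ a, ∑' i, ‖lam (Nat.pair a i)‖ = (d (mu a) : ℝ) * ‖mu a‖ := by
      intro a
      rw [(hrow a (fun z => ‖z‖) norm_zero).tsum_eq, nsmul_eq_mul]
    simp only [h1]
    rw [(hcol (fun μ => (d μ : ℝ) * ‖μ‖) (by simp)).1]
    exact hsum'.subtype S
  have hsl : Summable (fun k => ‖lam k‖) := by
    rw [← Nat.pairEquiv.summable_iff]
    exact hsn
  refine ⟨⟨lam, w, htri, hind, hgen⟩, hsl, ?_⟩
  change ∑' k, lam k = ∑' μ : ℂ, (d μ : ℂ) * μ
  have h1 : ∑' k, lam k = ∑' p : ℕ × ℕ, lam (Nat.pair p.1 p.2) :=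
    (Nat.pairEquiv.tsum_eq lam).symm
  have h2 : Summable (fun p : ℕ × ℕ => lam (Nat.pair p.1 p.2)) := hsn.of_norm
  rw [h1, h2.tsum_prod]
  have h3 : ∀ a, ∑' i, lam (Nat.pair a i) = (d (mu a) : ℂ) * mu a := by
    intro a
    rw [(hrow a (fun z => z) rfl).tsum_eq, nsmul_eq_mul]
  simp only [h3]
  rw [(hcol (fun μ => (d μ : ℂ) * μ) (by simp)).2]
  refine tsum_subtype_eq_of_support_subset (f := fun μ : ℂ => (d μ : ℂ) * μ) ?_
  intro μ hμ
  rw [hS]
  intro h
  apply hμ
  rcases mul_eq_zero.1 h with h | h
  · have h' : d μ = 0 := by exact_mod_cast h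
    simp [h']
  · rw [norm_eq_zero.1 h]
    exact mul_zero _

end Pool.Agent.Helper42.LS
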